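import Pool.Agent.N936.TC.Stm

/-! TC/ENUM: the recurrent sequence of types and words exists. -/

set_option autoImplicit false

namespace Pool.Agent.N91.TC

open Pool.Agent.N936.TC

/-- the labels -/
abbrev D : Type := ℕ × Bool × List Bool

theorem t_ENUM : Pool.Agent.N936.TC.S_ENUM := by
  refine ⟨fun n => ((Encodable.decode (α := D) n).getD (0, false, [])).2.1,
    fun n k => (((Encodable.decode (α := D) n).getD (0, false, [])).2.2)[k]?.getD false, ?_⟩
  intro i w m N
  have hinj : Function.Injective (fun k : ℕ => Encodable.encode
      ((k, i, List.ofFn (fun a : Fin m => w a)) : D)) := by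
    intro a b h
    have h1 := Encodable.encode_injective h
    exact (Prod.mk.inj h1).1
  obtain ⟨n, ⟨k, hk⟩, hn⟩ := (Set.infinite_range_of_injective hinj).exists_gt N
  refine ⟨n, hn.le, ?_, ?_⟩
  · show ((Encodable.decode (α := D) n).getD (0, false, [])).2.1 = i
    rw [← hk]
    simp
  · intro j hj
    show (((Encodable.decode (α := D) n).getD (0, false, [])).2.2)[j]?.getD false = w j
    rw [← hk]
    simp [hj]

end Pool.Agent.N91.TC
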